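import Pool.Agent.Helper12.RQ.Goals

set_option autoImplicit false

open MeasureTheory Set Filter Topology Metric

open scoped ENNReal NNReal ContDiff

namespace Pool.Agent.Helper8.RQ

open Pool.Agent.Helper12.RQ

theorem cpt : StmtCPT := by
  intro n C U hU h01
  have hK : IsCompact (Set.pi univ fun _ : ℕ => Icc (0 : ℝ) 1) :=
    isCompact_univ_pi fun _ => isCompact_Icc
  obtain ⟨a, -, φ, hφ, hlim⟩ := hK.tendsto_subseq
    (x := fun k j => U k (TopologicalSpace.denseSeq (E n) j))
    (fun k j _ => h01 k (TopologicalSpace.denseSeq (E n) j))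
  rw [tendsto_pi_nhds] at hlim
  refine ⟨φ, hφ, ?_⟩
  have key : ∀ x, ∃ l, Tendsto (fun k => U (φ k) x) atTop (𝓝 l) := by
    intro x
    apply cauchySeq_tendsto_of_complete
    rw [Metric.cauchySeq_iff]
    intro ε hε
    have hC : 0 < (C : ℝ) + 1 := by positivity
    obtain ⟨j, hj⟩ := (TopologicalSpace.denseRange_denseSeq (E n)).exists_dist_lt x
      (show 0 < ε / (4 * ((C : ℝ) + 1)) by positivity)
    obtain ⟨N, hN⟩ := (Metric.cauchySeq_iff.1 (hlim j).cauchySeq) (ε / 4) (by positivity)
    refine ⟨N, fun k hk m hm => ?_⟩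
    have h1 := hN k hk m hm
    have h2 := (hU (φ k)).dist_le_mul x (TopologicalSpace.denseSeq (E n) j)
    have h3 := (hU (φ m)).dist_le_mul x (TopologicalSpace.denseSeq (E n) j)
    have h4 : (C : ℝ) * dist x (TopologicalSpace.denseSeq (E n) j) ≤ ε / 4 := by
      rw [lt_div_iff₀ (by positivity)] at hj
      nlinarith [dist_nonneg (x := x) (y := TopologicalSpace.denseSeq (E n) j)]
    have h5 := dist_triangle4 (U (φ k) x) (U (φ k) (TopologicalSpace.denseSeq (E n) j))
      (U (φ m) (TopologicalSpace.denseSeq (E n) j)) (U (φ m) x)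
    rw [dist_comm (U (φ m) (TopologicalSpace.denseSeq (E n) j)) (U (φ m) x)] at h5
    simp only [Function.comp_apply] at h1
    linarith
  choose u hu using key
  exact ⟨u, hu⟩

end Pool.Agent.Helper8.RQ
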