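import Pool.Agent.Helper12.RQ.Goals

set_option autoImplicit false

open MeasureTheory Set Filter Topology Metric

open scoped ENNReal NNReal ContDiff

namespace Pool.Agent.Helper8.RQ

open Pool.Agent.Helper12.RQ

theorem scal : StmtSCAL := by
  intro n p hp N lam hlam hN B hB
  have hS : MeasurableSet (N ⁻¹' B) := hN.measurable hB
  have hli : lam⁻¹ ≠ 0 := inv_ne_zero hlam.ne'
  have hF : Measurable (fun z : E n => (N ⁻¹' B).indicator (fun z => ‖fderiv ℝ N z‖ₑ ^ p) z) := by
    apply Measurable.indicator _ hS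
    have := (measurable_fderiv ℝ N).enorm
    fun_prop
  have hS' : MeasurableSet ((fun y : E n => N (lam⁻¹ • y)) ⁻¹' B) :=
    (hN.comp (continuous_const_smul lam⁻¹)).measurable hB
  have h1 : flux p (fun y => N (lam⁻¹ • y)) B =
      ENNReal.ofReal (lam ^ (-p)) *
        ∫⁻ y, (N ⁻¹' B).indicator (fun z => ‖fderiv ℝ N z‖ₑ ^ p) (lam⁻¹ • y) := by
    unfold flux
    rw [← lintegral_const_mul _ (by fun_prop), ← lintegral_indicator hS']
    apply lintegral_congr
    intro y
    by_cases hy : N (lam⁻¹ • y) ∈ B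
    · rw [indicator_of_mem (by exact hy), indicator_of_mem (by exact hy), fderiv_comp_smul,
        enorm_smul, ENNReal.mul_rpow_of_nonneg _ _ hp.le]
      congr 1
      rw [Real.enorm_eq_ofReal (inv_nonneg.2 hlam.le), ENNReal.ofReal_rpow_of_pos (inv_pos.2 hlam),
        Real.inv_rpow hlam.le, Real.rpow_neg hlam.le]
    · rw [indicator_of_notMem (by exact hy), indicator_of_notMem (by exact hy), mul_zero]
  have h2 : ∫⁻ y, (N ⁻¹' B).indicator (fun z => ‖fderiv ℝ N z‖ₑ ^ p) (lam⁻¹ • y) =
      ENNReal.ofReal (lam ^ (n : ℝ)) * flux p N B := by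
    have h3 := lintegral_map hF (measurable_const_smul (lam⁻¹) : Measurable (fun y : E n => lam⁻¹ • y))
      (μ := volume)
    have h4 : Measure.map (fun y : E n => lam⁻¹ • y) volume =
        ENNReal.ofReal (lam ^ (n : ℝ)) • volume := by
      rw [Measure.map_addHaar_smul _ hli]
      congr 2
      rw [finrank_euclideanSpace_fin, inv_pow, inv_inv, abs_of_pos (by positivity),
        Real.rpow_natCast]
    rw [h4, lintegral_smul_measure, lintegral_indicator hS] at h3
    exact h3.symm
  rw [h1, h2, ← mul_assoc, ← ENNReal.ofReal_mul (by positivity)]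
  congr 2
  rw [← Real.rpow_add hlam]
  congr 1
  ring

end Pool.Agent.Helper8.RQ
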